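import Pool.Agent.Helper5.ST.GoalsC

/-!
Packet FINAL: from the single scale theorem to the bound `exp (c (log n) ^ (4/3))`.
-/

open Pool.Agent.Helper5.Gap Pool.Agent.Helper5.ST

namespace Pool.Agent.Helper98.ST

universe u

theorem ball_subset_of_stable {G : Type u} [Group G] {X : Set G} {n : ℕ}
    (h : ball X (n + 1) ⊆ ball X n) : ∀ m, ball X m ⊆ ball X n := by
  have key : ∀ l : List G, (∀ x ∈ l, x ∈ X ∨ x⁻¹ ∈ X) → l.prod ∈ ball X n := by
    intro l
    induction l with
    | nil => intro _; exact one_mem_ball n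
    | cons x l ih =>
      intro hl
      have h1 : l.prod ∈ ball X n := ih (fun y hy => hl y (List.mem_cons_of_mem _ hy))
      have h2 : x ∈ ball X 1 := ⟨[x], by simp, by simpa using hl x (by simp), by simp⟩
      rw [List.prod_cons]
      apply h
      rw [add_comm]
      exact mul_mem_ball h2 h1
  rintro m g ⟨l, _, hl, rfl⟩
  exact key l hl

theorem succ_le_growth {G : Type u} [Group G] [Infinite G] {X : Set G} (hX : X.Finite)
    (hXt : Subgroup.closure X = ⊤) : ∀ n, n + 1 ≤ growth X n := by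
  intro n
  induction n with
  | zero => exact growth_pos hX 0
  | succ n ih =>
    have h1 : ball X n ⊂ ball X (n + 1) := by
      refine ⟨ball_mono (Nat.le_succ n), fun h => ?_⟩
      have h2 : (Set.univ : Set G) ⊆ ball X n := by
        intro g _
        obtain ⟨m, hm⟩ := exists_mem_ball hXt g
        exact ball_subset_of_stable h m hm
      exact Set.infinite_univ ((ball_finite hX n).subset h2)
    have h2 : growth X n < growth X (n + 1) := Set.ncard_lt_ncard h1 (ball_finite hX _)
    omega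

theorem infinite_of_not_virtNilpotent {G : Type u} [Group G] (h : ¬ VirtNilpotent G) :
    Infinite G := by
  by_contra hfin
  rw [not_infinite_iff_finite] at hfin
  refine h ⟨⊥, inferInstance, ?_⟩
  infer_instance

theorem finalThm (h : SScale.{u}) : SFinal.{u} := by
  obtain ⟨C₀, hC, hS⟩ := h
  have hCr : (1 : ℝ) ≤ C₀ := by exact_mod_cast hC
  refine ⟨1 / (6400 * C₀ * 16), by positivity, ?_⟩
  intro G _ X hX hG n hn
  have hinf := infinite_of_not_virtNilpotent hG
  set y : ℝ := Real.log n with hy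
  have hn1 : (1 : ℝ) ≤ n := by exact_mod_cast hn
  have hy0 : 0 ≤ y := Real.log_nonneg hn1
  have hysplit : y ^ (4 / 3 : ℝ) = y * y ^ (1 / 3 : ℝ) := by
    rw [show (4 / 3 : ℝ) = 1 + 1 / 3 by norm_num, Real.rpow_add_of_nonneg hy0 (by norm_num)
      (by norm_num), Real.rpow_one]
  have hcpos : (0 : ℝ) < 6400 * C₀ * 16 := by positivity
  by_cases hsmall : n < 2 ^ (400 * C₀)
  · have h1 : y ≤ 400 * C₀ := by
      have h2 : (n : ℝ) ≤ 2 ^ (400 * C₀) := by exact_mod_cast hsmall.le
      have h3 : y ≤ Real.log (2 ^ (400 * C₀)) := Real.log_le_log (by linarith) h2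
      rw [Real.log_pow] at h3
      have h4 : Real.log 2 ≤ 1 := by
        have := Real.log_two_lt_d9; linarith
      push_cast at h3
      nlinarith
    have h2 : y ^ (1 / 3 : ℝ) ≤ 1 + y := by
      rcases le_total y 1 with h | h
      · have := Real.rpow_le_one hy0 h (show (0 : ℝ) ≤ 1 / 3 by norm_num)
        linarith
      · have := Real.rpow_le_rpow_of_exponent_le h (show (1 / 3 : ℝ) ≤ 1 by norm_num)
        rw [Real.rpow_one] at this
        linarith
    have h3 : 1 / (6400 * C₀ * 16) * y ^ (4 / 3 : ℝ) ≤ y := by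
      rw [hysplit, div_mul_eq_mul_div, one_mul, div_le_iff₀ hcpos]
      have h5 : y * y ^ (1 / 3 : ℝ) ≤ y * (1 + y) := mul_le_mul_of_nonneg_left h2 hy0
      nlinarith
    have h4 : Real.exp (1 / (6400 * C₀ * 16) * y ^ (4 / 3 : ℝ)) ≤ n := by
      calc _ ≤ Real.exp y := Real.exp_le_exp.2 h3
        _ = n := Real.exp_log (by linarith)
    refine h4.trans ?_
    have h6 := succ_le_growth X.finite_toSet hX n
    exact_mod_cast (Nat.le_succ n).trans h6
  · push Not at hsmall
    set v := Nat.log 2 n / 400 with hv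
    have hlog : 400 * C₀ ≤ Nat.log 2 n := by
      rw [Nat.le_log_iff_pow_le (by norm_num) (by omega)]
      exact hsmall
    have hvC : C₀ ≤ v := by
      rw [hv, Nat.le_div_iff_mul_le (by norm_num)]
      omega
    have hv400 : 400 * v ≤ Nat.log 2 n := by
      rw [hv]; exact Nat.mul_div_le _ _
    have hv401 : Nat.log 2 n < 400 * (v + 1) := by
      rw [hv]; exact Nat.lt_mul_div_succ _ (by norm_num)
    -- the largest `d`
    have hex : ∃ d, 1 ≤ d ∧ C₀ * d ^ 3 ≤ v ∧ v < C₀ * (d + 1) ^ 3 := by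
      let P : ℕ → Prop := fun d => C₀ * d ^ 3 ≤ v
      have hP1 : P 1 := by simpa [P] using hvC
      have hbd : 1 ≤ v := hC.trans hvC
      set d := Nat.findGreatest P v with hd
      have hPd : P d := Nat.findGreatest_spec (P := P) hbd hP1
      have h1d : 1 ≤ d := Nat.le_findGreatest hbd hP1
      refine ⟨d, h1d, hPd, ?_⟩
      by_contra hlt
      push Not at hlt
      have hPd1 : P (d + 1) := hlt
      have hle : d + 1 ≤ v := by
        have h7 : d + 1 ≤ C₀ * (d + 1) ^ 3 := by
          calc d + 1 = 1 * (d + 1) ^ 1 := by ring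
            _ ≤ C₀ * (d + 1) ^ 3 :=
              Nat.mul_le_mul hC (Nat.pow_le_pow_right (Nat.succ_pos d) (by norm_num))
        exact h7.trans hlt
      have := Nat.le_findGreatest (P := P) hle hPd1
      omega
    obtain ⟨d, hd1, hdv, hvd⟩ := hex
    have hbig : 2 ^ (100 * d * v) < growth (X : Set G) (2 ^ (400 * v)) := by
      by_contra hle
      exact hG (hS d v hd1 hdv G X X.finite_toSet hX (not_lt.1 hle))
    have hpow : 2 ^ (400 * v) ≤ n := by
      rw [← Nat.le_log_iff_pow_le (by norm_num) (by omega)]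
      exact hv400
    have hgr : 2 ^ (100 * d * v) ≤ growth (X : Set G) n :=
      hbig.le.trans (growth_mono X.finite_toSet hpow)
    have hvr : (1 : ℝ) ≤ v := by exact_mod_cast hC.trans hvC
    have hdr : (1 : ℝ) ≤ d := by exact_mod_cast hd1
    have hyv : y ≤ 800 * v := by
      have h2 : (n : ℝ) ≤ 2 ^ (400 * (v + 1)) := by
        have : n < 2 ^ (Nat.log 2 n + 1) := Nat.lt_pow_succ_log_self (by norm_num) n
        have h3 : 2 ^ (Nat.log 2 n + 1) ≤ 2 ^ (400 * (v + 1)) :=
          Nat.pow_le_pow_right (by norm_num) hv401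
        exact_mod_cast this.le.trans h3
      have h3 : y ≤ Real.log (2 ^ (400 * (v + 1))) := Real.log_le_log (by linarith) h2
      rw [Real.log_pow] at h3
      have h4 : Real.log 2 ≤ 1 := by
        have := Real.log_two_lt_d9; linarith
      have h5 : (0 : ℝ) ≤ Real.log 2 := Real.log_nonneg (by norm_num)
      push_cast at h3
      nlinarith
    have hroot : y ^ (1 / 3 : ℝ) ≤ 6400 * C₀ * d := by
      have h1 : y ≤ (6400 * C₀ * d) ^ 3 := by
        have h2 : (v : ℝ) ≤ C₀ * (d + 1) ^ 3 := by exact_mod_cast hvd.le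
        have h3 : ((d : ℝ) + 1) ^ 3 ≤ (2 * d) ^ 3 := by
          apply pow_le_pow_left₀ (by positivity); linarith
        have h4 : (v : ℝ) ≤ C₀ * (8 * d ^ 3) := by
          calc (v : ℝ) ≤ C₀ * (d + 1) ^ 3 := h2
            _ ≤ C₀ * (2 * d) ^ 3 := by gcongr
            _ = C₀ * (8 * d ^ 3) := by ring
        have h5 : (C₀ : ℝ) ≤ C₀ ^ 3 := by
          calc (C₀ : ℝ) = C₀ ^ 1 := by ring
            _ ≤ C₀ ^ 3 := pow_le_pow_right₀ hCr (by norm_num)
        have hd3 : (0 : ℝ) ≤ (d : ℝ) ^ 3 := by positivity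
        calc y ≤ 800 * v := hyv
          _ ≤ 800 * (C₀ * (8 * d ^ 3)) := by gcongr
          _ = 6400 * (C₀ * d ^ 3) := by ring
          _ ≤ 6400 * (C₀ ^ 3 * d ^ 3) := by gcongr
          _ ≤ 6400 ^ 3 * (C₀ ^ 3 * d ^ 3) := by
              apply mul_le_mul_of_nonneg_right (by norm_num) (by positivity)
          _ = (6400 * C₀ * d) ^ 3 := by ring
      calc y ^ (1 / 3 : ℝ) ≤ ((6400 * C₀ * d) ^ 3) ^ (1 / 3 : ℝ) :=
            Real.rpow_le_rpow hy0 h1 (by norm_num)
        _ = 6400 * C₀ * d := by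
            rw [← Real.rpow_natCast, ← Real.rpow_mul (by positivity)]
            norm_num
    have hfin : 1 / (6400 * C₀ * 16) * y ^ (4 / 3 : ℝ) ≤ (100 * d * v : ℕ) * Real.log 2 := by
      rw [hysplit, div_mul_eq_mul_div, one_mul, div_le_iff₀ hcpos]
      have h5 : y * y ^ (1 / 3 : ℝ) ≤ (800 * v) * (6400 * C₀ * d) :=
        mul_le_mul hyv hroot (Real.rpow_nonneg hy0 _) (by positivity)
      have h6 : (0.69 : ℝ) ≤ Real.log 2 := by
        have := Real.log_two_gt_d9; linarith
      refine h5.trans ?_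
      push_cast
      have h7 : (0 : ℝ) ≤ (d : ℝ) * v * C₀ := by positivity
      have h8 : (100 * d * v) * (0.69 : ℝ) * (6400 * C₀ * 16) ≤
          (100 * d * v) * Real.log 2 * (6400 * C₀ * 16) := by gcongr
      refine le_trans ?_ h8
      nlinarith
    calc Real.exp (1 / (6400 * C₀ * 16) * y ^ (4 / 3 : ℝ))
        ≤ Real.exp ((100 * d * v : ℕ) * Real.log 2) := Real.exp_le_exp.2 hfin
      _ = 2 ^ (100 * d * v) := by
          rw [Real.exp_nat_mul, Real.exp_log (by norm_num)]
      _ ≤ growth (X : Set G) n := by exact_mod_cast hgr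

end Pool.Agent.Helper98.ST
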