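import Pool.Agent.Helper5.ST.GoalsB

/-!
Packet MIL: explicit generating sets for the derived series of a group of small growth.
-/

open scoped commutatorElement
open Pool.Agent.Helper5.Gap Pool.Agent.Helper5.ST

namespace Pool.Agent.Helper98.ST

universe u

variable {H : Type u} [Group H]

theorem UU_subset_ball (S : Set H) (K : ℕ) : ∀ i, UU S K i ⊆ ball S (ulen 1 K i)
  | 0 => fun _ hx => mem_ball_one hx
  | i + 1 => by
    rintro y ⟨g, hg, u, hu, v, hv, rfl⟩
    have h1 := UU_subset_ball S K i hu
    have h2 := UU_subset_ball S K i hv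
    have h3 := conj_mem_ball hg (commutator_mem_ball h1 h2)
    refine ball_mono ?_ h3
    simp only [ulen]
    omega

theorem ulen_le (K : ℕ) : ∀ i, ulen 1 K i + K ≤ 4 ^ i * (K + 1)
  | 0 => by simp [ulen]; omega
  | i + 1 => by
    have h := ulen_le K i
    simp only [ulen]
    rw [pow_succ]
    nlinarith

theorem commutator_le_of_pairwise {U : Set H} {D C : Subgroup H} [C.Normal]
    (hD : D = Subgroup.closure U) (h : ∀ u ∈ U, ∀ v ∈ U, ⁅u, v⁆ ∈ C) : ⁅D, D⁆ ≤ C := by
  set q := QuotientGroup.mk' C with hq
  have h0 : ∀ m ∈ U, ∀ n ∈ U, q m * q n = q n * q m := by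
    intro m hm n hn
    have h2 : q ⁅m, n⁆ = 1 := (QuotientGroup.eq_one_iff _).2 (h m hm n hn)
    rw [map_commutatorElement, commutatorElement_eq_one_iff_mul_comm] at h2
    exact h2
  have h1 : ∀ m ∈ U, ∀ n ∈ D, q m * q n = q n * q m := by
    intro m hm
    have : D ≤ (Subgroup.centralizer {q m}).comap q := by
      rw [hD]
      refine (Subgroup.closure_le _).2 ?_
      intro n hn
      simp only [Subgroup.coe_comap, Set.mem_preimage, SetLike.mem_coe,
        Subgroup.mem_centralizer_iff, Set.mem_singleton_iff, forall_eq]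
      exact h0 m hm n hn
    intro n hn
    have := this hn
    simpa only [Subgroup.mem_comap, Subgroup.mem_centralizer_iff, Set.mem_singleton_iff,
      forall_eq] using this
  have h2 : ∀ n ∈ D, ∀ m ∈ D, q m * q n = q n * q m := by
    intro n hn
    have : D ≤ (Subgroup.centralizer {q n}).comap q := by
      conv_lhs => rw [hD]
      refine (Subgroup.closure_le _).2 ?_
      intro m hm
      simp only [Subgroup.coe_comap, Set.mem_preimage, SetLike.mem_coe,
        Subgroup.mem_centralizer_iff, Set.mem_singleton_iff, forall_eq]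
      exact (h1 m hm n hn).symm
    intro m hm
    have := this hm
    simpa only [Subgroup.mem_comap, Subgroup.mem_centralizer_iff, Set.mem_singleton_iff,
      forall_eq, eq_comm] using this
  rw [Subgroup.commutator_le]
  intro m hm n hn
  have h3 : q ⁅m, n⁆ = 1 := by
    rw [map_commutatorElement, commutatorElement_eq_one_iff_mul_comm]
    exact h2 n hn m hm
  exact (QuotientGroup.eq_one_iff _).1 h3

theorem closure_UU_succ {S : Set H} (hX : S.Finite) (hXt : Subgroup.closure S = ⊤) {K R : ℕ}
    (hg : growth S R < 2 ^ K) {i : ℕ} (hR : K * ulen 1 K (i + 1) ≤ R)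
    (ih : Subgroup.closure (UU S K i) = derivedSeries H i) :
    Subgroup.closure (UU S K (i + 1)) = derivedSeries H (i + 1) := by
  classical
  set D := derivedSeries H i with hD
  have hDn : D.Normal := inferInstance
  set T : ℕ → Set H := fun m => {y | ∃ g ∈ ball S m, ∃ u ∈ UU S K i, ∃ v ∈ UU S K i,
    y = g * ⁅u, v⁆ * g⁻¹} with hT
  set C : ℕ → Subgroup H := fun m => Subgroup.closure (T m) with hC
  have hTmono : ∀ {m n : ℕ}, m ≤ n → T m ⊆ T n := by
    rintro m n hmn y ⟨g, hg, u, hu, v, hv, rfl⟩
    exact ⟨g, ball_mono hmn hg, u, hu, v, hv, rfl⟩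
  have hCmono : ∀ {m n : ℕ}, m ≤ n → C m ≤ C n := fun hmn =>
    Subgroup.closure_mono (hTmono hmn)
  have hUD : ∀ u ∈ UU S K i, u ∈ D := fun u hu => by
    rw [← ih]; exact Subgroup.subset_closure hu
  have hCD : ∀ m, C m ≤ ⁅D, D⁆ := by
    intro m
    refine (Subgroup.closure_le _).2 ?_
    rintro y ⟨g, _, u, hu, v, hv, rfl⟩
    have hn : (⁅D, D⁆ : Subgroup H).Normal := inferInstance
    exact hn.conj_mem _ (Subgroup.commutator_mem_commutator (hUD u hu) (hUD v hv)) g
  have hTlen : ∀ m ≤ K, T m ⊆ ball S (ulen 1 K (i + 1)) := by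
    intro m hm
    exact (hTmono hm).trans (UU_subset_ball S K (i + 1))
  have hgoal : derivedSeries H (i + 1) = ⁅D, D⁆ := derivedSeries_succ _ _
  have hCK : Subgroup.closure (UU S K (i + 1)) = C K := rfl
  rw [hgoal, hCK]
  by_cases hstop : ∃ m < K, C (m + 1) ≤ C m
  · obtain ⟨m, hm, hSm⟩ := hstop
    have hnorm : (C m).Normal := by
      refine normal_of_generators hXt _ ?_
      intro x hx n hn
      apply hSm
      have hn' : n ∈ Subgroup.closure (T m) := hn
      have : MulAut.conj x n ∈ (Subgroup.closure (T m)).map (MulAut.conj x).toMonoidHom :=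
        ⟨n, hn', rfl⟩
      rw [MonoidHom.map_closure] at this
      refine Subgroup.closure_mono ?_ this
      rintro _ ⟨y, ⟨g, hg, u, hu, v, hv, rfl⟩, rfl⟩
      refine ⟨x * g, ?_, u, hu, v, hv, ?_⟩
      · rw [add_comm]; exact mul_mem_ball hx hg
      · simp [MulAut.conj_apply, mul_assoc]
    have h1 : ⁅D, D⁆ ≤ C m := by
      refine commutator_le_of_pairwise ih.symm ?_
      intro u hu v hv
      exact Subgroup.subset_closure ⟨1, one_mem_ball m, u, hu, v, hv, by simp⟩
    exact le_antisymm (hCD K) (h1.trans (hCmono hm.le))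
  · exfalso
    push Not at hstop
    have key : ∀ m ≤ K, Lev S (ulen 1 K (i + 1)) (C m) (C 0) m := by
      intro m
      induction m with
      | zero => intro _; exact .zero le_rfl
      | succ m ihm =>
        intro hm
        have h1 : ¬ (T (m + 1) ⊆ (C m : Set H)) := by
          intro h2
          exact hstop m (by omega) ((Subgroup.closure_le _).2 h2)
        obtain ⟨y, hy, hy'⟩ := Set.not_subset.1 h1
        exact .step (hCmono (Nat.le_succ m)) (Subgroup.subset_closure hy) hy'
          (hTlen _ hm hy) (ihm (by omega))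
    exact absurd ((key K le_rfl).two_pow_le hX hR) (not_le.2 hg)

theorem mil : SMil.{u} := by
  intro H _ S hS hSt K R r hg hR i
  induction i with
  | zero =>
    intro _
    rw [derivedSeries_zero]
    exact hSt
  | succ i ih =>
    intro hi
    refine closure_UU_succ hS hSt hg ?_ (ih (by omega))
    refine le_trans (Nat.mul_le_mul_left _ ?_) hR
    have h1 := ulen_le K (i + 1)
    have h2 : 4 ^ (i + 1) * (K + 1) ≤ 4 ^ r * (K + 1) :=
      Nat.mul_le_mul_right _ (Nat.pow_le_pow_right (by norm_num) hi)
    omega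

end Pool.Agent.Helper98.ST
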