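import Pool.Agent.Helper69.ST.Goals

/-!
# GQ: Green's inequality, pulled back to the disk
-/

open MeasureTheory Set Complex Metric Filter
open scoped ContDiff Topology ENNReal

namespace Pool.Agent.Helper98.ST.GQ

open Pool.Agent.Helper45.Stek Pool.Agent.Helper69.ST

lemma lin_expand (L : ℂ →L[ℝ] ℂ) (w : ℂ) : L w = w.re * L 1 + w.im * L I := by
  have h : w = w.re • (1 : ℂ) + w.im • I := by
    rw [real_smul, real_smul, mul_one, re_add_im]
  conv_lhs => rw [h]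
  rw [map_add, map_smul, map_smul, real_smul, real_smul]

/-- `dbar` of `q ∘ φ` with `φ` holomorphic. -/
lemma dbar_comp {q φ : ℂ → ℂ} {y m : ℂ} (hq : DifferentiableAt ℝ q (φ y)) (hφ : HasDerivAt φ m y) :
    dbar (fun x => q (φ x)) y = starRingEnd ℂ m * dbar q (φ y) := by
  have h1 := hq.hasFDerivAt.comp y (hφ.hasFDerivAt.restrictScalars ℝ)
  have h2 : fderiv ℝ (fun x => q (φ x)) y =
      (fderiv ℝ q (φ y)).comp (ContinuousLinearMap.restrictScalars ℝ
        (ContinuousLinearMap.toSpanSingleton ℂ m)) := h1.fderiv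
  set L := fderiv ℝ q (φ y) with hL
  unfold dbar
  rw [h2]
  simp only [ContinuousLinearMap.comp_apply, ContinuousLinearMap.coe_restrictScalars',
    ContinuousLinearMap.toSpanSingleton_apply, smul_eq_mul, one_mul]
  rw [lin_expand L m, lin_expand L (I * m), ← hL]
  have h3 : starRingEnd ℂ m = m.re - m.im * I := by
    apply Complex.ext <;> simp
  rw [h3]
  have h4 : (I * m).re = -m.im := by simp
  have h5 : (I * m).im = m.re := by simp
  rw [h4, h5]
  push_cast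
  ring_nf
  rw [I_sq]
  ring

/-- The pointwise comparison. -/
lemma ptwise {U v V : ℂ → ℂ} {x : ℂ} {τ K : ℝ} (hU : DifferentiableAt ℝ U (x + τ * V x))
    (hV : DifferentiableAt ℝ V x) (hv : v =ᶠ[𝓝 x] fun y => U (y + τ * V y))
    (hK : ‖fderiv ℝ V x‖ ≤ K) (hτ : 0 ≤ τ) (hτK : τ * K ≤ 1 / 2) :
    ‖dbar v x - dbar U (x + τ * V x)‖ ≤
      4 * K * τ * (1 + (‖fderiv ℝ v x 1‖ ^ 2 + ‖fderiv ℝ v x I‖ ^ 2)) := by
  set A := fderiv ℝ U (x + τ * V x) with hA
  set B := fderiv ℝ V x with hB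
  have hK0 : 0 ≤ K := le_trans (norm_nonneg _) hK
  have h1 : HasFDerivAt (fun y => y + τ * V y) (ContinuousLinearMap.id ℝ ℂ + (τ : ℂ) • B) x :=
    (hasFDerivAt_id x).add (hV.hasFDerivAt.const_mul (τ : ℂ))
  have h2 : HasFDerivAt v (A.comp (ContinuousLinearMap.id ℝ ℂ + (τ : ℂ) • B)) x :=
    (hU.hasFDerivAt.comp x h1).congr_of_eventuallyEq hv
  have h3 : ∀ w : ℂ, fderiv ℝ v x w = A w + τ * A (B w) := by
    intro w
    rw [h2.fderiv]
    simp only [ContinuousLinearMap.comp_apply, add_apply,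
      ContinuousLinearMap.id_apply, smul_apply, map_add, smul_eq_mul]
    congr 1
    have : (τ : ℂ) * B w = τ • B w := by rw [real_smul]
    rw [this, map_smul, real_smul]
  -- the norm of `A`
  have h4 : ∀ w : ℂ, ‖fderiv ℝ v x w‖ ≤ (‖fderiv ℝ v x 1‖ + ‖fderiv ℝ v x I‖) * ‖w‖ := by
    intro w
    rw [lin_expand (fderiv ℝ v x) w]
    calc ‖(w.re : ℂ) * fderiv ℝ v x 1 + w.im * fderiv ℝ v x I‖
        ≤ ‖(w.re : ℂ) * fderiv ℝ v x 1‖ + ‖(w.im : ℂ) * fderiv ℝ v x I‖ := norm_add_le _ _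
      _ = |w.re| * ‖fderiv ℝ v x 1‖ + |w.im| * ‖fderiv ℝ v x I‖ := by
          rw [norm_mul, norm_mul, norm_real, norm_real, Real.norm_eq_abs, Real.norm_eq_abs]
      _ ≤ ‖w‖ * ‖fderiv ℝ v x 1‖ + ‖w‖ * ‖fderiv ℝ v x I‖ := by
          gcongr
          · exact abs_re_le_norm w
          · exact abs_im_le_norm w
      _ = _ := by ring
  set S := ‖fderiv ℝ v x 1‖ + ‖fderiv ℝ v x I‖ with hS
  have hS0 : 0 ≤ S := by positivity
  have h5 : ‖A‖ ≤ S + 1 / 2 * ‖A‖ := by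
    apply ContinuousLinearMap.opNorm_le_bound _ (by positivity)
    intro w
    have h6 : A w = fderiv ℝ v x w - τ * A (B w) := by rw [h3 w]; ring
    calc ‖A w‖ = ‖fderiv ℝ v x w - τ * A (B w)‖ := by rw [h6]
      _ ≤ ‖fderiv ℝ v x w‖ + ‖(τ : ℂ) * A (B w)‖ := norm_sub_le _ _
      _ ≤ S * ‖w‖ + τ * (‖A‖ * (K * ‖w‖)) := by
          gcongr
          · exact h4 w
          · rw [norm_mul, norm_real, Real.norm_eq_abs, abs_of_nonneg hτ]
            gcongr
            calc ‖A (B w)‖ ≤ ‖A‖ * ‖B w‖ := A.le_opNorm _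
              _ ≤ ‖A‖ * (K * ‖w‖) := by
                gcongr
                exact (B.le_opNorm w).trans (by gcongr)
      _ = (S + (τ * K) * ‖A‖) * ‖w‖ := by ring
      _ ≤ (S + 1 / 2 * ‖A‖) * ‖w‖ := by gcongr
  have h7 : ‖A‖ ≤ 2 * S := by linarith
  have h8 : dbar v x - dbar U (x + τ * V x) = τ * (A (B 1) + I * A (B I)) := by
    unfold dbar
    rw [h3 1, h3 I, ← hA]
    ring
  rw [h8, norm_mul, norm_real, Real.norm_eq_abs, abs_of_nonneg hτ]
  have h9 : ‖A (B 1)‖ ≤ 2 * S * K := by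
    calc ‖A (B 1)‖ ≤ ‖A‖ * ‖B 1‖ := A.le_opNorm _
      _ ≤ 2 * S * K := by
        gcongr
        calc ‖B 1‖ ≤ ‖B‖ * ‖(1 : ℂ)‖ := B.le_opNorm _
          _ ≤ K := by rw [norm_one, mul_one]; exact hK
  have h10 : ‖I * A (B I)‖ ≤ 2 * S * K := by
    rw [norm_mul, norm_I, one_mul]
    calc ‖A (B I)‖ ≤ ‖A‖ * ‖B I‖ := A.le_opNorm _
      _ ≤ 2 * S * K := by
        gcongr
        calc ‖B I‖ ≤ ‖B‖ * ‖(I : ℂ)‖ := B.le_opNorm _
          _ ≤ K := by rw [norm_I, mul_one]; exact hK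
  have h11 : S ≤ 1 + (‖fderiv ℝ v x 1‖ ^ 2 + ‖fderiv ℝ v x I‖ ^ 2) := by
    rw [hS]
    nlinarith [sq_nonneg (‖fderiv ℝ v x 1‖ - 1 / 2), sq_nonneg (‖fderiv ℝ v x I‖ - 1 / 2)]
  calc τ * ‖A (B 1) + I * A (B I)‖ ≤ τ * (2 * S * K + 2 * S * K) := by
        gcongr
        exact (norm_add_le _ _).trans (add_le_add h9 h10)
    _ = 4 * K * τ * S := by ring
    _ ≤ _ := by gcongr


lemma continuous_dbar {q : ℂ → ℂ} (hq : ContDiff ℝ ∞ q) : Continuous (dbar q) := by
  have h1 : Continuous (fderiv ℝ q) := hq.continuous_fderiv (by simp)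
  unfold dbar
  exact (h1.clm_apply continuous_const).add (continuous_const.mul (h1.clm_apply continuous_const))

lemma continuous_ee {q : ℂ → ℂ} (hq : ContDiff ℝ ∞ q) :
    Continuous (fun z => ‖fderiv ℝ q z 1‖ ^ 2 + ‖fderiv ℝ q z I‖ ^ 2) := by
  have h1 : Continuous (fderiv ℝ q) := hq.continuous_fderiv (by simp)
  exact ((h1.clm_apply continuous_const).norm.pow 2).add
    ((h1.clm_apply continuous_const).norm.pow 2)

/-- Continuous functions are integrable on a bounded set. -/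
lemma intOn {E : Type*} [NormedAddCommGroup E] {Ω : Set ℂ} (hb : Bornology.IsBounded Ω)
    {F : ℂ → E} (hF : Continuous F) : IntegrableOn F Ω := by
  have h1 : IsCompact (closure Ω) := hb.isCompact_closure
  exact (hF.continuousOn.integrableOn_compact h1).mono_set subset_closure

/-- The function `dbar (q ∘ φ)`, extended by `0`. -/
noncomputable def Dfun (p : ℕ) (Ω : Set ℂ) (φ : ℂ → ℂ) (β : ℕ → ℂ) (q : ℂ → ℂ) : ℂ → ℂ :=
  Ω.indicator (fun y => starRingEnd ℂ ((hfun p β (φ y) ^ 2)⁻¹) * dbar q (φ y))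

lemma Dfun_spec {p : ℕ} {Ω : Set ℂ} {f φ : ℂ → ℂ} {β : ℕ → ℂ} {q : ℂ → ℂ} {ρ₂ : ℝ}
    (hO : IsOpen Ω) (hC : Conf p Ω f φ β) (hq : ContDiff ℝ ∞ q)
    (hφ : ∀ x ∈ Ω, φ x ∈ ball (0 : ℂ) 1 ∧ f (φ x) = x ∧
      HasDerivAt φ ((hfun p β (φ x) ^ 2)⁻¹) x)
    (hh : ContinuousOn (hfun p β) (ball 0 1)) (hρ : ρ₂ < 1)
    (hz : ∀ w : ℂ, ρ₂ < ‖w‖ → ‖w‖ < 1 → dbar q w = 0) :
    Continuous (Dfun p Ω φ β q) ∧ HasCompactSupport (Dfun p Ω φ β q) := by
  have hfc : ContinuousOn f (ball 0 1) := fun z hz => (hC.der z hz).continuousAt.continuousWithinAt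
  have hsub : closedBall (0 : ℂ) ρ₂ ⊆ ball 0 1 := closedBall_subset_ball hρ
  have hK : IsCompact (f '' closedBall (0 : ℂ) ρ₂) :=
    (isCompact_closedBall 0 ρ₂).image_of_continuousOn (hfc.mono hsub)
  have hKΩ : f '' closedBall (0 : ℂ) ρ₂ ⊆ Ω := by
    rw [← hC.im]
    exact image_mono hsub
  have h0 : ∀ x, x ∉ f '' closedBall (0 : ℂ) ρ₂ → Dfun p Ω φ β q x = 0 := by
    intro x hx
    unfold Dfun
    by_cases hxΩ : x ∈ Ω
    · rw [indicator_of_mem hxΩ]
      obtain ⟨h1, h2, h3⟩ := hφ x hxΩ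
      have h4 : ρ₂ < ‖φ x‖ := by
        by_contra hcon
        push Not at hcon
        exact hx ⟨φ x, by simpa using hcon, h2⟩
      rw [hz _ h4 (by simpa using h1), mul_zero]
    · rw [indicator_of_notMem hxΩ]
  refine ⟨?_, HasCompactSupport.intro hK h0⟩
  rw [continuous_iff_continuousAt]
  intro x
  by_cases hx : x ∈ f '' closedBall (0 : ℂ) ρ₂
  · have hxΩ := hKΩ hx
    obtain ⟨h1, h2, h3⟩ := hφ x hxΩ
    have h4 : ContinuousAt (fun y => starRingEnd ℂ ((hfun p β (φ y) ^ 2)⁻¹) * dbar q (φ y)) x := by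
      have h5 : ContinuousAt φ x := h3.continuousAt
      have h6 : ContinuousAt (hfun p β) (φ x) := hh.continuousAt (isOpen_ball.mem_nhds h1)
      have h7 : ContinuousAt (fun y => hfun p β (φ y)) x := ContinuousAt.comp (f := φ) h6 h5
      have h8 : ContinuousAt (fun y => (hfun p β (φ y) ^ 2)⁻¹) x :=
        (h7.pow 2).inv₀ (pow_ne_zero 2 (hC.nz _ h1))
      have h9 : ContinuousAt (fun y => dbar q (φ y)) x :=
        ContinuousAt.comp (f := φ) (continuous_dbar hq).continuousAt h5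
      exact (continuous_conj.continuousAt.comp h8).mul h9
    refine h4.congr ?_
    filter_upwards [hO.mem_nhds hxΩ] with y hy
    unfold Dfun
    rw [indicator_of_mem hy]
  · have h4 : Dfun p Ω φ β q =ᶠ[𝓝 x] fun _ => (0 : ℂ) := by
      filter_upwards [hK.isClosed.isOpen_compl.mem_nhds hx] with y hy
      exact h0 y hy
    exact (continuousAt_const.congr h4.symm)

theorem t (hPH : S_PH) (hEX : S_EX) (hEE : S_EE) (hDV : S_DV) : S_GQ := by
  intro p Ω f φ β V τ₀ hp hΩ hC hV q ρ₂ hq hρ hz ε hε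
  obtain ⟨hφ, hinj, hhc, -, hcv, -, -⟩ := hPH p Ω f φ β hp hΩ.isOpen hC
  obtain ⟨C, τ₁, hC0, hτ₁, hτ₁₀, hE⟩ := hEE p Ω f φ β V τ₀ hp hΩ hC hV
  obtain ⟨hDc, hDs⟩ := Dfun_spec hΩ.isOpen hC hq hφ hhc hρ hz
  set D := Dfun p Ω φ β q with hD
  -- bounds for `V`
  obtain ⟨M, hM⟩ := hV.sm.continuous.bounded_above_of_compact_support hV.cp
  obtain ⟨K, hK⟩ := (hV.sm.continuous_fderiv (by simp)).bounded_above_of_compact_support
    (hV.cp.fderiv (𝕜 := ℝ))
  have hM0 : 0 ≤ M := (norm_nonneg _).trans (hM 0)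
  have hK0 : 0 ≤ K := (norm_nonneg _).trans (hK 0)
  set a := area Ω with ha
  have ha0 : 0 ≤ a := ENNReal.toReal_nonneg
  set E₀ := energy (ball 0 1) q with hE₀
  have hE₀0 : 0 ≤ E₀ := by
    rw [hE₀]
    unfold energy
    exact integral_nonneg (fun z => by positivity)
  -- uniform continuity
  have hUC : UniformContinuous D := hDs.uniformContinuous_of_continuous hDc
  rw [Metric.uniformContinuous_iff] at hUC
  obtain ⟨δ, hδ, hUC⟩ := hUC (ε / (2 * (a + 1))) (by positivity)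
  refine ⟨min τ₁ (min (1 / (2 * (K + 1))) (min (δ / (M + 1))
    (ε / (8 * (K + 1) * (a + (1 + C * τ₀) * E₀ + 1))))), ?_, ?_, ?_⟩
  · have : 0 ≤ C * τ₀ := mul_nonneg hC0 hV.pos.le
    refine lt_min hτ₁ (lt_min (by positivity) (lt_min (by positivity) (by positivity)))
  · exact (min_le_left _ _).trans hτ₁₀
  intro τ hτ hτm
  have hτa : τ < τ₁ := hτm.trans_le (min_le_left _ _)
  have hτb : τ < 1 / (2 * (K + 1)) := hτm.trans_le ((min_le_right _ _).trans (min_le_left _ _))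
  have hτc : τ < δ / (M + 1) :=
    hτm.trans_le ((min_le_right _ _).trans ((min_le_right _ _).trans (min_le_left _ _)))
  have hτd : τ < ε / (8 * (K + 1) * (a + (1 + C * τ₀) * E₀ + 1)) :=
    hτm.trans_le ((min_le_right _ _).trans ((min_le_right _ _).trans (min_le_right _ _)))
  have hττ₀ : τ < τ₀ := hτa.trans_le hτ₁₀
  obtain ⟨v, hv, hvx⟩ := hEX p Ω f φ β V τ₀ hp hΩ hC hV τ hτ hττ₀ q hq
  have hEv := hE τ hτ hτa q v hq hv hvx
  have hτK : τ * K ≤ 1 / 2 := by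
    have h1 : τ * (2 * (K + 1)) < 1 := by
      rwa [lt_div_iff₀ (by positivity)] at hτb
    nlinarith
  -- the pointwise bound
  have hpt : ∀ x ∈ Ω, ‖dbar v x - D x‖ ≤
      4 * K * τ * (1 + (‖fderiv ℝ v x 1‖ ^ 2 + ‖fderiv ℝ v x I‖ ^ 2)) + ε / (2 * (a + 1)) := by
    intro x hx
    have hy : x + τ * V x ∈ Ω := hV.shift τ hτ hττ₀ x (subset_closure hx)
    obtain ⟨h1, h2, h3⟩ := hφ _ hy
    have hqd : Differentiable ℝ q := hq.differentiable (by simp)
    have hU : DifferentiableAt ℝ (fun y => q (φ y)) (x + τ * V x) :=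
      (hqd _).comp _ (h3.differentiableAt.restrictScalars ℝ)
    have h4 := ptwise (U := fun y => q (φ y)) (v := v) (V := V) (x := x) (τ := τ) (K := K) hU
      (hV.sm.differentiable (by simp) x)
      (by
        filter_upwards [hΩ.isOpen.mem_nhds hx] with y hy
        exact hvx y (subset_closure hy)) (hK x) hτ.le hτK
    have h5 : dbar (fun y => q (φ y)) (x + τ * V x) = D (x + τ * V x) := by
      rw [dbar_comp (hqd _) h3, hD]
      unfold Dfun
      rw [indicator_of_mem hy]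
    rw [h5] at h4
    have h6 : ‖D (x + τ * V x) - D x‖ ≤ ε / (2 * (a + 1)) := by
      have h7 : dist (x + τ * V x) x < δ := by
        rw [dist_eq_norm, add_sub_cancel_left, norm_mul, norm_real, Real.norm_eq_abs,
          abs_of_nonneg hτ.le]
        calc τ * ‖V x‖ ≤ τ * (M + 1) := by
              gcongr
              linarith [hM x]
          _ < δ := by rwa [lt_div_iff₀ (by positivity)] at hτc
      have h8 := hUC h7
      rw [dist_eq_norm] at h8
      exact h8.le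
    calc ‖dbar v x - D x‖ = ‖(dbar v x - D (x + τ * V x)) + (D (x + τ * V x) - D x)‖ := by
          congr 1; ring
      _ ≤ _ := (norm_add_le _ _).trans (add_le_add h4 h6)
  -- the integrals
  have hmΩ : MeasurableSet Ω := hΩ.isOpen.measurableSet
  have hvol : volume Ω < ⊤ := hΩ.bdd.measure_lt_top
  have hi1 : IntegrableOn (dbar v) Ω := intOn hΩ.bdd (continuous_dbar hv)
  have hi2 : IntegrableOn D Ω := intOn hΩ.bdd hDc
  have hi3 : IntegrableOn (fun x => ‖fderiv ℝ v x 1‖ ^ 2 + ‖fderiv ℝ v x I‖ ^ 2) Ω :=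
    intOn hΩ.bdd (continuous_ee hv)
  have hc1 : ∀ c : ℝ, IntegrableOn (fun _ : ℂ => c) Ω := fun c =>
    intOn hΩ.bdd continuous_const
  have hi4 : IntegrableOn (fun x => 1 + (‖fderiv ℝ v x 1‖ ^ 2 + ‖fderiv ℝ v x I‖ ^ 2)) Ω :=
    (hc1 1).add hi3
  have hi5 : IntegrableOn (fun x => 4 * K * τ *
      (1 + (‖fderiv ℝ v x 1‖ ^ 2 + ‖fderiv ℝ v x I‖ ^ 2))) Ω := hi4.const_mul _
  have hdiff : ‖(∫ x in Ω, dbar v x) - ∫ x in Ω, D x‖ ≤
      4 * K * τ * (a + energy Ω v) + ε / (2 * (a + 1)) * a := by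
    rw [← integral_sub hi1 hi2]
    refine (norm_integral_le_integral_norm _).trans ?_
    have h1 : ∫ x in Ω, ‖dbar v x - D x‖ ≤ ∫ x in Ω, (4 * K * τ *
        (1 + (‖fderiv ℝ v x 1‖ ^ 2 + ‖fderiv ℝ v x I‖ ^ 2)) + ε / (2 * (a + 1))) := by
      exact setIntegral_mono_on (hi1.sub hi2).norm (hi5.add (hc1 _)) hmΩ hpt
    refine h1.trans (le_of_eq ?_)
    rw [integral_add hi5 (hc1 _), integral_const_mul,
      integral_add (hc1 1) hi3, setIntegral_const, setIntegral_const]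
    unfold energy
    simp only [smul_eq_mul, mul_one]
    have h2 : volume.real Ω = a := rfl
    rw [h2]
    ring
  -- the integral of `D`
  have hDint : ∫ x in Ω, D x = ∫ w in ball (0 : ℂ) 1, dbar q w * hfun p β w ^ 2 := by
    rw [hcv D]
    refine setIntegral_congr_fun measurableSet_ball ?_
    intro w hw
    have hfw : f w ∈ Ω := by rw [← hC.im]; exact ⟨w, hw, rfl⟩
    have h1 : D (f w) = starRingEnd ℂ ((hfun p β w ^ 2)⁻¹) * dbar q w := by
      rw [hD]
      unfold Dfun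
      rw [indicator_of_mem hfw, hC.inv w hw]
    simp only
    rw [h1, real_smul]
    set H := hfun p β w with hH
    have hne : H ≠ 0 := hC.nz w hw
    have hne' : starRingEnd ℂ H ≠ 0 := by simpa using hne
    have h2 : ((‖H‖ ^ 4 : ℝ) : ℂ) = H ^ 2 * (starRingEnd ℂ H) ^ 2 := by
      have h3 : ((‖H‖ ^ 2 : ℝ) : ℂ) = H * starRingEnd ℂ H := by
        rw [mul_conj, normSq_eq_norm_sq]
      have h4 : ((‖H‖ ^ 4 : ℝ) : ℂ) = ((‖H‖ ^ 2 : ℝ) : ℂ) ^ 2 := by push_cast; ring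
      rw [h4, h3]
      ring
    rw [h2, map_inv₀, map_pow]
    field_simp
  -- the boundary integral
  have hbd : ∫ x in frontier Ω, ‖v x‖ ∂(Measure.hausdorffMeasure 1) =
      ∫ x in frontier Ω, ‖q (φ (x + τ * V x))‖ ∂(Measure.hausdorffMeasure 1) := by
    refine setIntegral_congr_fun isClosed_frontier.measurableSet ?_
    intro x hx
    simp only
    rw [hvx x (frontier_subset_closure hx)]
  rw [← hDint, ← hbd]
  have h1 := hDV Ω hΩ v hv
  have h2 : ‖∫ x in Ω, D x‖ ≤ ‖∫ x in Ω, dbar v x‖ + ‖(∫ x in Ω, dbar v x) - ∫ x in Ω, D x‖ := by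
    have h3 : ∫ x in Ω, D x = (∫ x in Ω, dbar v x) - ((∫ x in Ω, dbar v x) - ∫ x in Ω, D x) := by
      ring
    calc ‖∫ x in Ω, D x‖ = ‖(∫ x in Ω, dbar v x) - ((∫ x in Ω, dbar v x) - ∫ x in Ω, D x)‖ := by
          rw [← h3]
      _ ≤ _ := norm_sub_le _ _
  have h3 : ε / (2 * (a + 1)) * a ≤ ε / 2 := by
    rw [div_mul_eq_mul_div, div_le_div_iff₀ (by positivity) (by norm_num)]
    nlinarith
  have h4 : 4 * K * τ * (a + energy Ω v) ≤ ε / 2 := by
    have h5 : energy Ω v ≤ (1 + C * τ₀) * E₀ := by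
      refine hEv.trans (mul_le_mul_of_nonneg_right ?_ hE₀0)
      have := mul_le_mul_of_nonneg_left hττ₀.le hC0
      linarith
    have h6 : 0 ≤ (1 + C * τ₀) * E₀ := by
      have := mul_nonneg hC0 hV.pos.le
      positivity
    have h7 : τ * (8 * (K + 1) * (a + (1 + C * τ₀) * E₀ + 1)) < ε := by
      rwa [lt_div_iff₀ (by positivity)] at hτd
    calc 4 * K * τ * (a + energy Ω v) ≤ 4 * (K + 1) * τ * (a + (1 + C * τ₀) * E₀ + 1) := by
          have h8 : 0 ≤ energy Ω v := by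
            unfold energy
            exact integral_nonneg (fun z => by positivity)
          refine mul_le_mul ?_ (by linarith) (by linarith) (by positivity)
          refine mul_le_mul_of_nonneg_right (by linarith) hτ.le
      _ ≤ ε / 2 := by linarith
  linarith

end Pool.Agent.Helper98.ST.GQ
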