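import Pool.Agent.Helper69.ST.GoalsR

/-!
# PROJECT ST, part 2, packet HW: Hurwitz's theorem
-/

open Set Metric Filter Topology

namespace Pool.Agent.Helper98.ST.HW

/-- minimum principle on a ball -/
theorem minp {h : ℂ → ℂ} {b : ℂ} {r m : ℝ} (hr : 0 < r) (hm : 0 < m) {U : Set ℂ}
    (hd : DifferentiableOn ℂ h U) (hU : closedBall b r ⊆ U) (h0 : ∀ z ∈ closedBall b r, h z ≠ 0)
    (hs : ∀ z ∈ sphere b r, m ≤ ‖h z‖) : m ≤ ‖h b‖ := by
  have hcl : closure (ball b r) = closedBall b r := closure_ball b hr.ne'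
  have hfr : frontier (ball b r) = sphere b r := frontier_ball b hr.ne'
  have h1 : DiffContOnCl ℂ h⁻¹ (ball b r) :=
    (hd.diffContOnCl_ball hU).inv (by rw [hcl]; exact h0)
  have h2 : ‖h⁻¹ b‖ ≤ m⁻¹ := by
    refine Complex.norm_le_of_forall_mem_frontier_norm_le isBounded_ball h1 ?_
      (subset_closure (mem_ball_self hr))
    intro z hz
    rw [hfr] at hz
    rw [Pi.inv_apply, norm_inv]
    exact inv_anti₀ hm (hs z hz)
  rw [Pi.inv_apply, norm_inv] at h2
  have h3 : 0 < ‖h b‖ := norm_pos_iff.2 (h0 b (mem_closedBall_self hr.le))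
  exact (inv_le_inv₀ h3 hm).1 h2

theorem t : Helper69.ST.S_HW := by
  intro U f g hU hUc hf hinj hlim
  by_cases hc : ∃ c : ℂ, ∀ z ∈ U, g z = c
  · exact Or.inl hc
  right
  have hg : DifferentiableOn ℂ g U := hlim.differentiableOn (Eventually.of_forall hf) hU
  intro a ha b hb hab
  by_contra hne
  have hh : DifferentiableOn ℂ (fun z => g z - g a) U := hg.sub_const _
  have han : AnalyticOnNhd ℂ (fun z => g z - g a) U := hh.analyticOnNhd hU
  have hnf : ¬ ∃ᶠ z in 𝓝[≠] b, g z - g a = 0 := by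
    intro hfr
    have := han.eqOn_zero_of_preconnected_of_frequently_eq_zero hUc.isPreconnected hb hfr
    exact hc ⟨g a, fun z hz => sub_eq_zero.1 (this hz)⟩
  rw [not_frequently] at hnf
  obtain ⟨r₁, hr₁, h1⟩ := Metric.mem_nhdsWithin_iff.1 hnf
  obtain ⟨r₂, hr₂, h2⟩ := Metric.isOpen_iff.1 hU b hb
  have hd : 0 < dist a b := dist_pos.2 hne
  obtain ⟨r, hr, hrr1, hrr2, hrr3⟩ : ∃ r : ℝ, 0 < r ∧ r < r₁ ∧ r < r₂ ∧ r < dist a b := by
    refine ⟨min r₁ (min r₂ (dist a b)) / 2, ?_, ?_, ?_, ?_⟩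
    · have : 0 < min r₁ (min r₂ (dist a b)) := lt_min hr₁ (lt_min hr₂ hd)
      linarith
    · have h3 : 0 < min r₁ (min r₂ (dist a b)) := lt_min hr₁ (lt_min hr₂ hd)
      have := min_le_left r₁ (min r₂ (dist a b))
      linarith
    · have h3 : 0 < min r₁ (min r₂ (dist a b)) := lt_min hr₁ (lt_min hr₂ hd)
      have := (min_le_right r₁ (min r₂ (dist a b))).trans (min_le_left _ _)
      linarith
    · have h3 : 0 < min r₁ (min r₂ (dist a b)) := lt_min hr₁ (lt_min hr₂ hd)
      have := (min_le_right r₁ (min r₂ (dist a b))).trans (min_le_right _ _)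
      linarith
  have hBU : closedBall b r ⊆ U := (closedBall_subset_ball hrr2).trans h2
  have haB : a ∉ closedBall b r := by
    rw [mem_closedBall]
    exact not_le.2 hrr3
  have hne0 : ∀ z ∈ sphere b r, g z - g a ≠ 0 := by
    intro z hz
    refine h1 ⟨?_, ?_⟩
    · rw [mem_ball, mem_sphere.1 hz]
      exact hrr1
    · intro hzb
      rw [mem_singleton_iff] at hzb
      rw [hzb, mem_sphere, dist_self] at hz
      exact hr.ne hz
  have hcomp : IsCompact (sphere b r) := isCompact_sphere b r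
  have hnon : (sphere b r).Nonempty := (NormedSpace.sphere_nonempty).2 hr.le
  have hcont : ContinuousOn (fun z => ‖g z - g a‖) (sphere b r) :=
    (hh.continuousOn.mono (sphere_subset_closedBall.trans hBU)).norm
  obtain ⟨z₀, hz₀, hmin⟩ := hcomp.exists_isMinOn hnon hcont
  set e := ‖g z₀ - g a‖ with he
  have he0 : 0 < e := norm_pos_iff.2 (hne0 z₀ hz₀)
  have hun := (tendstoLocallyUniformlyOn_iff_forall_isCompact hU).1 hlim
    (insert a (closedBall b r)) (insert_subset ha hBU) ((isCompact_closedBall b r).insert a)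
  rw [Metric.tendstoUniformlyOn_iff] at hun
  obtain ⟨n, hn⟩ := (hun (e / 8) (by linarith)).exists
  have hna : ‖g a - f n a‖ < e / 8 := by
    have := hn a (mem_insert _ _)
    rwa [dist_eq_norm] at this
  have hnz : ∀ z ∈ closedBall b r, ‖g z - f n z‖ < e / 8 := by
    intro z hz
    have := hn z (mem_insert_of_mem _ hz)
    rwa [dist_eq_norm] at this
  have hmain : 3 * e / 4 ≤ ‖f n b - f n a‖ := by
    refine minp (h := fun z => f n z - f n a) hr (by linarith) ((hf n).sub_const _) hBU ?_ ?_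
    · intro z hz h0
      have := hinj n (hBU hz) ha (sub_eq_zero.1 h0)
      rw [this] at hz
      exact haB hz
    · intro z hz
      have h3 : e ≤ ‖g z - g a‖ := hmin hz
      have h4 := hnz z (sphere_subset_closedBall hz)
      have h5 : g z - g a = (f n z - f n a) + ((g z - f n z) - (g a - f n a)) := by ring
      have h6 : ‖g z - g a‖ ≤ ‖f n z - f n a‖ + (‖g z - f n z‖ + ‖g a - f n a‖) := by
        rw [h5]
        exact (norm_add_le _ _).trans (by gcongr; exact norm_sub_le _ _)
      show 3 * e / 4 ≤ ‖f n z - f n a‖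
      linarith
  have h4 := hnz b (mem_closedBall_self hr.le)
  have h5 : f n b - f n a = (g a - f n a) - (g b - f n b) := by rw [hab]; ring
  have h6 : ‖f n b - f n a‖ ≤ ‖g a - f n a‖ + ‖g b - f n b‖ := by
    rw [h5]
    exact norm_sub_le _ _
  linarith

end Pool.Agent.Helper98.ST.HW
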